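import Pool.Agent.W97.KE.Stm

/-!
# KE-PLACE: the place of an algebraic closure of `ℚ_ℓ`
-/

set_option autoImplicit false

namespace Pool.Agent.W318.KE

open Polynomial
open Pool.Agent.H901R3.MS Pool.Agent.W97.KE

section

variable (ℓ : ℕ) [hℓ : Fact ℓ.Prime]

/-- the spectral norm on the algebraic closure -/
noncomputable def nn (x : AlgebraicClosure ℚ_[ℓ]) : ℝ :=
  spectralNorm ℚ_[ℓ] (AlgebraicClosure ℚ_[ℓ]) x

theorem nn_eq (x : PadicAlgCl ℓ) : nn ℓ x = ‖x‖ := rfl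

theorem nn_nonneg (x : AlgebraicClosure ℚ_[ℓ]) : 0 ≤ nn ℓ x := by
  rw [nn_eq]
  exact norm_nonneg _

theorem nn_mul (x y : AlgebraicClosure ℚ_[ℓ]) : nn ℓ (x * y) = nn ℓ x * nn ℓ y :=
  norm_mul (α := PadicAlgCl ℓ) x y

theorem nn_one : nn ℓ 1 = 1 := norm_one (α := PadicAlgCl ℓ)

theorem nn_zero : nn ℓ 0 = 0 := norm_zero (E := PadicAlgCl ℓ)

theorem nn_inv (x : AlgebraicClosure ℚ_[ℓ]) : nn ℓ x⁻¹ = (nn ℓ x)⁻¹ :=
  norm_inv (α := PadicAlgCl ℓ) x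

theorem nn_neg (x : AlgebraicClosure ℚ_[ℓ]) : nn ℓ (-x) = nn ℓ x :=
  norm_neg (E := PadicAlgCl ℓ) x

theorem nn_add (x y : AlgebraicClosure ℚ_[ℓ]) : nn ℓ (x + y) ≤ max (nn ℓ x) (nn ℓ y) :=
  PadicAlgCl.isNonarchimedean ℓ x y

theorem nn_ext (a : ℚ_[ℓ]) : nn ℓ (algebraMap ℚ_[ℓ] (AlgebraicClosure ℚ_[ℓ]) a) = ‖a‖ :=
  PadicAlgCl.norm_extends ℓ a

theorem nn_equiv (τ : AlgebraicClosure ℚ_[ℓ] ≃ₐ[ℚ_[ℓ]] AlgebraicClosure ℚ_[ℓ])
    (x : AlgebraicClosure ℚ_[ℓ]) : nn ℓ (τ x) = nn ℓ x :=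
  (spectralNorm_eq_of_equiv τ x).symm

/-- the unit ball -/
noncomputable def OO : ValuationSubring (AlgebraicClosure ℚ_[ℓ]) where
  carrier := {x | nn ℓ x ≤ 1}
  mul_mem' := by
    intro a b ha hb
    change nn ℓ (a * b) ≤ 1
    rw [nn_mul]
    exact mul_le_one₀ ha (nn_nonneg ℓ b) hb
  one_mem' := (nn_one ℓ).le
  add_mem' := by
    intro a b ha hb
    exact (nn_add ℓ a b).trans (max_le ha hb)
  zero_mem' := by
    change nn ℓ 0 ≤ 1
    rw [nn_zero]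
    exact zero_le_one
  neg_mem' := by
    intro a ha
    change nn ℓ (-a) ≤ 1
    rw [nn_neg]
    exact ha
  mem_or_inv_mem' := by
    intro x
    rcases le_total (nn ℓ x) 1 with h | h
    · exact Or.inl h
    · right
      change nn ℓ x⁻¹ ≤ 1
      rw [nn_inv]
      exact inv_le_one_of_one_le₀ h

theorem mem_OO (x : AlgebraicClosure ℚ_[ℓ]) : x ∈ OO ℓ ↔ nn ℓ x ≤ 1 := Iff.rfl

theorem isUnit_iff (x : OO ℓ) : IsUnit x ↔ nn ℓ (x : AlgebraicClosure ℚ_[ℓ]) = 1 := by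
  constructor
  · intro h
    obtain ⟨y, hy⟩ := h.exists_right_inv
    have h1 : nn ℓ (x : AlgebraicClosure ℚ_[ℓ]) * nn ℓ (y : AlgebraicClosure ℚ_[ℓ]) = 1 := by
      rw [← nn_mul, ← nn_one ℓ]
      congr 1
      exact congrArg Subtype.val hy
    have h2 := (mem_OO ℓ _).1 x.2
    have h3 := (mem_OO ℓ _).1 y.2
    have h4 := nn_nonneg ℓ (x : AlgebraicClosure ℚ_[ℓ])
    have h5 := nn_nonneg ℓ (y : AlgebraicClosure ℚ_[ℓ])
    nlinarith
  · intro h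
    have hx0 : (x : AlgebraicClosure ℚ_[ℓ]) ≠ 0 := by
      intro h0
      rw [h0, nn_zero] at h
      exact zero_ne_one h
    have hinv : (x : AlgebraicClosure ℚ_[ℓ])⁻¹ ∈ OO ℓ := by
      rw [mem_OO, nn_inv, h, inv_one]
    refine IsUnit.of_mul_eq_one ⟨_, hinv⟩ ?_
    exact Subtype.ext (mul_inv_cancel₀ hx0)

/-- the residue field -/
abbrev kap : Type := IsLocalRing.ResidueField (OO ℓ)

/-- the residue map -/
noncomputable abbrev res : OO ℓ →+* kap ℓ := IsLocalRing.residue (OO ℓ)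

theorem res_eq_zero (x : OO ℓ) : res ℓ x = 0 ↔ nn ℓ (x : AlgebraicClosure ℚ_[ℓ]) < 1 := by
  rw [IsLocalRing.residue_eq_zero_iff, IsLocalRing.mem_maximalIdeal, mem_nonunits_iff,
    isUnit_iff]
  have := (mem_OO ℓ _).1 x.2
  constructor
  · intro h
    exact lt_of_le_of_ne this h
  · intro h
    exact h.ne

/-- the embedding of the `ℓ`-adic integers -/
noncomputable def jj : ℤ_[ℓ] →+* OO ℓ :=
  ((algebraMap ℚ_[ℓ] (AlgebraicClosure ℚ_[ℓ])).comp (PadicInt.Coe.ringHom (p := ℓ))).codRestrict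
    (OO ℓ) (by
      intro a
      rw [mem_OO]
      change nn ℓ (algebraMap ℚ_[ℓ] (AlgebraicClosure ℚ_[ℓ]) (a : ℚ_[ℓ])) ≤ 1
      rw [nn_ext]
      exact a.2)

theorem jj_apply (a : ℤ_[ℓ]) : (jj ℓ a : AlgebraicClosure ℚ_[ℓ]) =
    algebraMap ℚ_[ℓ] (AlgebraicClosure ℚ_[ℓ]) (a : ℚ_[ℓ]) := rfl

theorem res_jj_zero (a : ℤ_[ℓ]) (h : a ∈ IsLocalRing.maximalIdeal ℤ_[ℓ]) :
    res ℓ (jj ℓ a) = 0 := by
  rw [res_eq_zero, jj_apply, nn_ext]
  rw [IsLocalRing.mem_maximalIdeal, PadicInt.mem_nonunits] at h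
  exact h

instance charP_kap : CharP (kap ℓ) ℓ := by
  rw [CharP.charP_iff_prime_eq_zero hℓ.1]
  have h1 : res ℓ (jj ℓ (ℓ : ℤ_[ℓ])) = 0 := by
    apply res_jj_zero
    rw [PadicInt.maximalIdeal_eq_span_p]
    exact Ideal.mem_span_singleton_self _
  rw [map_natCast, map_natCast] at h1
  exact h1

noncomputable instance : Algebra (ZMod ℓ) (kap ℓ) := ZMod.algebra (kap ℓ) ℓ

theorem res_jj (a : ℤ_[ℓ]) :
    res ℓ (jj ℓ a) = algebraMap (ZMod ℓ) (kap ℓ) (PadicInt.toZMod a) := by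
  have h1 := PadicInt.toZMod_spec a
  have h2 := res_jj_zero ℓ _ h1
  rw [map_sub, map_sub, sub_eq_zero] at h2
  rw [h2, ZMod.cast_eq_val, map_natCast, map_natCast]
  conv_rhs => rw [← ZMod.natCast_zmod_val (PadicInt.toZMod a)]
  rw [map_natCast]

theorem res_surjective : Function.Surjective (res ℓ) := IsLocalRing.residue_surjective

theorem isAlgebraic_kap : Algebra.IsAlgebraic (ZMod ℓ) (kap ℓ) := by
  refine ⟨fun y => ?_⟩
  obtain ⟨x, rfl⟩ := res_surjective ℓ y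
  have halg : IsAlgebraic ℚ_[ℓ] (x : AlgebraicClosure ℚ_[ℓ]) :=
    Algebra.IsAlgebraic.isAlgebraic _
  have hint : IsIntegral ℚ_[ℓ] (x : AlgebraicClosure ℚ_[ℓ]) := halg.isIntegral
  set P := minpoly ℚ_[ℓ] (x : AlgebraicClosure ℚ_[ℓ]) with hP
  have hPm : P.Monic := minpoly.monic hint
  have hco : ∀ n, ‖P.coeff n‖ ≤ 1 := by
    rw [← spectralValue_le_one_iff hPm]
    exact (mem_OO ℓ _).1 x.2
  have hl : P ∈ lifts (PadicInt.Coe.ringHom (p := ℓ)) := by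
    rw [lifts_iff_coeff_lifts]
    intro n
    exact ⟨⟨P.coeff n, hco n⟩, rfl⟩
  obtain ⟨Q, hQ, -, hQm⟩ := lifts_and_natDegree_eq_and_monic hl hPm
  have h1 : eval₂ (jj ℓ) x Q = 0 := by
    apply Subtype.ext
    have h2 : ((eval₂ (jj ℓ) x Q : OO ℓ) : AlgebraicClosure ℚ_[ℓ]) =
        eval₂ ((algebraMap (OO ℓ) (AlgebraicClosure ℚ_[ℓ])).comp (jj ℓ))
          (x : AlgebraicClosure ℚ_[ℓ]) Q := by
      exact hom_eval₂ Q (jj ℓ) (algebraMap (OO ℓ) (AlgebraicClosure ℚ_[ℓ])) x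
    rw [h2]
    have h3 : (algebraMap (OO ℓ) (AlgebraicClosure ℚ_[ℓ])).comp (jj ℓ) =
        (algebraMap ℚ_[ℓ] (AlgebraicClosure ℚ_[ℓ])).comp (PadicInt.Coe.ringHom (p := ℓ)) := rfl
    rw [h3, ← eval₂_map, hQ]
    exact minpoly.aeval ℚ_[ℓ] (x : AlgebraicClosure ℚ_[ℓ])
  have h2 : eval₂ ((res ℓ).comp (jj ℓ)) (res ℓ x) Q = 0 := by
    rw [← hom_eval₂, h1, map_zero]
  have h3 : (res ℓ).comp (jj ℓ) = (algebraMap (ZMod ℓ) (kap ℓ)).comp PadicInt.toZMod := by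
    ext a
    exact res_jj ℓ a
  rw [h3, ← eval₂_map] at h2
  exact ⟨Q.map PadicInt.toZMod, (hQm.map _).ne_zero, h2⟩

theorem isAlgClosed_kap : IsAlgClosed (kap ℓ) := by
  refine IsAlgClosed.of_exists_root _ fun p hp hirr => ?_
  have hl : p ∈ lifts (res ℓ) := by
    rw [lifts_iff_coeff_lifts]
    intro n
    exact res_surjective ℓ _
  obtain ⟨Q, hQ, hdeg, hQm⟩ := lifts_and_natDegree_eq_and_monic hl hp
  have hd : (Q.map (algebraMap (OO ℓ) (AlgebraicClosure ℚ_[ℓ]))).degree ≠ 0 := by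
    rw [hQm.degree_map]
    intro h0
    have h1 : Q.natDegree = 0 := natDegree_eq_of_degree_eq_some h0
    rw [hdeg] at h1
    have := hirr.natDegree_pos
    omega
  obtain ⟨α, hα⟩ := IsAlgClosed.exists_root _ hd
  have hint : IsIntegral (OO ℓ) α := by
    refine ⟨Q, hQm, ?_⟩
    rw [IsRoot.def, eval_map] at hα
    exact hα
  obtain ⟨a, ha⟩ := (IsIntegrallyClosed.isIntegral_iff (R := OO ℓ)).1 hint
  refine ⟨res ℓ a, ?_⟩
  have h1 : Q.eval a = 0 := by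
    apply IsFractionRing.injective (OO ℓ) (AlgebraicClosure ℚ_[ℓ])
    rw [map_zero, ← hα, ← ha, eval_map, ← eval₂_at_apply]
  rw [← hQ, eval_map, eval₂_at_apply, h1, map_zero]

/-- the residue field is the algebraic closure of the prime field -/
noncomputable def ee : kap ℓ ≃+* AlgebraicClosure (ZMod ℓ) :=
  haveI := isAlgebraic_kap ℓ
  haveI := isAlgClosed_kap ℓ
  haveI : IsAlgClosure (ZMod ℓ) (kap ℓ) := ⟨inferInstance, inferInstance⟩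
  (IsAlgClosure.equiv (ZMod ℓ) (kap ℓ) (AlgebraicClosure (ZMod ℓ))).toRingEquiv

/-- the residue map with values in the algebraic closure of the prime field -/
noncomputable def rho : OO ℓ →+* AlgebraicClosure (ZMod ℓ) :=
  (ee ℓ : kap ℓ →+* AlgebraicClosure (ZMod ℓ)).comp (res ℓ)

theorem rho_eq_zero (x : OO ℓ) : rho ℓ x = 0 ↔ nn ℓ (x : AlgebraicClosure ℚ_[ℓ]) < 1 := by
  rw [← res_eq_zero]
  exact map_eq_zero_iff (ee ℓ) (ee ℓ).injective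

/-- the place -/
noncomputable def vv : Place (AlgebraicClosure ℚ_[ℓ]) (AlgebraicClosure (ZMod ℓ)) where
  A := (OO ℓ).toSubring
  ρ := rho ℓ
  inv_of_notMem := by
    intro x hx
    have hx' : ¬ nn ℓ x ≤ 1 := hx
    rw [not_le] at hx'
    have h1 : nn ℓ x⁻¹ < 1 := by
      rw [nn_inv]
      exact inv_lt_one_of_one_lt₀ hx'
    exact ⟨h1.le, (rho_eq_zero ℓ ⟨x⁻¹, h1.le⟩).2 h1⟩
  inv_of_ne := by
    intro x hx
    have h1 : ¬ nn ℓ (x : AlgebraicClosure ℚ_[ℓ]) < 1 := fun h => hx ((rho_eq_zero ℓ x).2 h)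
    rw [not_lt] at h1
    change nn ℓ (x : AlgebraicClosure ℚ_[ℓ])⁻¹ ≤ 1
    rw [nn_inv]
    exact inv_le_one_of_one_le₀ h1

/-- the action of an automorphism on the unit ball -/
noncomputable def tt (τ : AlgebraicClosure ℚ_[ℓ] ≃ₐ[ℚ_[ℓ]] AlgebraicClosure ℚ_[ℓ]) :
    OO ℓ ≃+* OO ℓ where
  toFun x := ⟨τ x, by rw [mem_OO, nn_equiv]; exact x.2⟩
  invFun x := ⟨τ.symm x, by rw [mem_OO, nn_equiv]; exact x.2⟩
  left_inv x := Subtype.ext (τ.symm_apply_apply x)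
  right_inv x := Subtype.ext (τ.apply_symm_apply x)
  map_mul' x y := Subtype.ext (map_mul τ (x : AlgebraicClosure ℚ_[ℓ]) y)
  map_add' x y := Subtype.ext (map_add τ (x : AlgebraicClosure ℚ_[ℓ]) y)

end

/-- PLACE: the place of an algebraic closure of `ℚ_ℓ` -/
theorem s_place : S_PLACE := by
  intro ℓ _
  refine ⟨vv ℓ, fun τ => ⟨((ee ℓ).symm.trans
    (IsLocalRing.ResidueField.mapEquiv (tt ℓ τ))).trans (ee ℓ), fun x => ?_⟩⟩
  have hmem : τ x ∈ (vv ℓ).A ↔ x ∈ (vv ℓ).A := by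
    change nn ℓ (τ x) ≤ 1 ↔ nn ℓ x ≤ 1
    rw [nn_equiv]
  refine ⟨hmem, ?_⟩
  by_cases hx : x ∈ (vv ℓ).A
  · rw [(vv ℓ).r_of hx, (vv ℓ).r_of (hmem.2 hx)]
    change ee ℓ (res ℓ (tt ℓ τ ⟨x, hx⟩)) =
      ee ℓ ((IsLocalRing.ResidueField.mapEquiv (tt ℓ τ)) ((ee ℓ).symm (ee ℓ (res ℓ ⟨x, hx⟩))))
    rw [RingEquiv.symm_apply_apply]
    rfl
  · have hx' : τ x ∉ (vv ℓ).A := fun h => hx (hmem.1 h)
    unfold Place.r
    rw [dif_neg hx, dif_neg hx', map_zero]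

end Pool.Agent.W318.KE
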